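import Pool.Agent.Lib.MP_7285af_lc.AlgB

namespace Pool.Agent.Results.MP_7285af_lc.Classification

open Pool.Agent.Lib.MP_7285af_lc Pool.Agent.Lib.Complexity N68a2faeb N793a5b8e

theorem result :
    (∀ c ∈ ({(1, 1, 1), (1, 1, 2), (1, 2, 1), (1, 2, 2), (2, 1, 1), (2, 1, 2), (2, 2, 1), (2, 2, 2),
      (3, 2, 2)} : Set (ℕ × ℕ × ℕ)), lang c.1 c.2.1 c.2.2 ∈ P) ∧
    (∀ c ∈ ({(1, 3, 1), (2, 3, 1), (3, 1, 1), (3, 2, 1), (3, 3, 1)} : Set (ℕ × ℕ × ℕ)),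
      IsCompleteFor NP (lang c.1 c.2.1 c.2.2)) ∧
    ((∀ a ∈ ({1, 2, 3} : Set ℕ), ∀ b ∈ ({1, 2, 3} : Set ℕ), ∀ t ∈ ({1, 2} : Set ℕ),
      (a, b, t) ∉ ({(3, 3, 2), (1, 3, 2), (2, 3, 2), (3, 1, 2)} : Set (ℕ × ℕ × ℕ)) →
        lang a b t ∈ P) ↔ P = NP) := by
  refine ⟨?_, ?_, fun h => Set.Subset.antisymm (fun L hL => ?_) (fun L hL => ?_),
    fun h a _ b _ t _ _ => h ▸ lang_mem_NP a b t⟩
  · rintro c (rfl | rfl | rfl | rfl | rfl | rfl | rfl | rfl | rfl) <;>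
      exact lang_mem_P (by simp) (by simp) (by simp) (by simp)
  · rintro c (rfl | rfl | rfl | rfl | rfl)
    · exact ⟨lang_mem_NP _ _ _, hard_rev 1⟩
    · exact ⟨lang_mem_NP _ _ _, hard_rev 2⟩
    · exact ⟨lang_mem_NP _ _ _, hard_three 1⟩
    · exact ⟨lang_mem_NP _ _ _, hard_three 2⟩
    · exact ⟨lang_mem_NP _ _ _, hard_three 3⟩
  · exact mem_NP_of_PT (R := fun x => L x.1) ((pt_of_isPolyTime_pred hL).comp (by fun_prop)) 0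
      fun x => ⟨fun hx => ⟨[], by simp, hx⟩, fun ⟨_, _, hx⟩ => hx⟩
  · exact mem_P_of_manyOne (hard_three 1 L hL)
      (h 3 (by simp) 1 (by simp) 1 (by simp) (by simp))

end Pool.Agent.Results.MP_7285af_lc.Classification
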